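import Mathlib
import Pool.Agent.X72.MedianDefs

/-! A median graph with a triametral triple without peripheral vertices. -/

namespace Pool.Agent.Results.MP_2f8eff_co.NoPeripheral

open Pool.Agent.X72.MedianDefs

/-- adjacency lists of the graph -/
def nb : Fin 8 → List (Fin 8)
  | 0 => [3, 6] | 1 => [5, 6] | 2 => [4, 7] | 3 => [0, 7]
  | 4 => [2, 5, 6] | 5 => [1, 4] | 6 => [0, 1, 4, 7] | 7 => [2, 3, 6]

/-- the graph -/
def H : SimpleGraph (Fin 8) where
  Adj u v := v ∈ nb u
  symm := ⟨by decide⟩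
  loopless := ⟨by decide⟩

instance : DecidableRel H.Adj := fun u v => inferInstanceAs (Decidable (v ∈ nb u))

/-- its distance matrix -/
def D (u v : Fin 8) : ℕ :=
  ([[0, 2, 3, 1, 2, 3, 1, 2], [2, 0, 3, 3, 2, 1, 1, 2], [3, 3, 0, 2, 1, 2, 2, 1],
    [1, 3, 2, 0, 3, 4, 2, 1], [2, 2, 1, 3, 0, 1, 1, 2], [3, 1, 2, 4, 1, 0, 2, 3],
    [1, 1, 2, 2, 1, 2, 0, 1], [2, 2, 1, 1, 2, 3, 1, 0]].getD u.val []).getD v.val 0

theorem key : H.Preconnected ∧ ∀ u v, H.dist u v = D u v := by
  apply dist_eq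
  · decide
  · decide
  · decide
  · decide

theorem med : ∀ u v w : Fin 8, ∃ x : Fin 8,
    ((D u x + D x v = D u v ∧ D u x + D x w = D u w ∧ D v x + D x w = D v w) ∧
    ∀ y : Fin 8, D u y + D y v = D u v ∧ D u y + D y w = D u w ∧ D v y + D y w = D v w → y = x) := by
  decide +kernel

theorem isMedian : IsMedian H := by
  obtain ⟨h1, h2⟩ := key
  refine ⟨⟨h1⟩, fun u v w => ?_⟩
  unfold ExistsUnique interval
  simp only [Set.mem_ofPred_eq, h2]
  exact med u v w

/-- There is a finite median graph with a triametral triple none of whose vertices is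
peripheral. -/
theorem result : ∃ G : SimpleGraph (Fin 8), IsMedian G ∧ ∃ a b c : Fin 8, IsTriametral G a b c ∧
    ¬ IsPeripheral G a ∧ ¬ IsPeripheral G b ∧ ¬ IsPeripheral G c := by
  refine ⟨H, isMedian, 0, 1, 2, ?_, ?_, ?_, ?_⟩
  · unfold IsTriametral tri
    simp only [key.2]
    decide +kernel
  all_goals
    rintro ⟨u, hu⟩
    have := hu 3 5
    simp only [key.2] at this
    clear hu
    revert this
    revert u
    decide

end Pool.Agent.Results.MP_2f8eff_co.NoPeripheral
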